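import Pool.Agent.H36.AO.PFin

/-!
Module AMB of project AO: amalgamation.
-/

namespace AO.BP

/-- approximations of high level -/
theorem amb_hi (hdxn : DXNStmt) {ι : Type} {T : ι → ι → Prop} {q : Cn ι} (vq : VC T q) (m : ℕ) :
    ∃ q' n, VC T q' ∧ PC T q' n ∧ m ≤ n ∧ Le q' q ∧ (∀ i, q'.a i ≠ [] → q.a i ≠ []) ∧
      ∀ i, q'.t i ≠ [] → q.t i ≠ [] := by
  obtain ⟨q', v, l, h1, h2, h3, h4⟩ := hdxn.hi ι T q (m + 1) vq
  obtain ⟨n, hn⟩ := v.pc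
  by_cases ha : ∃ i, q.a i ≠ []
  · obtain ⟨i, hi⟩ := ha
    have h5 := h3 i hi
    have h6 : q'.a i ≠ [] := by
      intro h
      rw [h] at h5
      simp at h5
    have h7 := hn.la i h6
    exact ⟨q', n, v, hn, by omega, l, fun i hi hq => hi (h1 i hq), fun i hi hq => hi (h2 i hq)⟩
  by_cases ht : ∃ i, q.t i ≠ []
  · obtain ⟨i, hi⟩ := ht
    have h5 := h4 i hi
    have h6 : q'.t i ≠ [] := by
      intro h
      rw [h] at h5
      simp at h5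
    have h7 := hn.lt i h6
    exact ⟨q', n, v, hn, by omega, l, fun i hi hq => hi (h1 i hq), fun i hi hq => hi (h2 i hq)⟩
  push Not at ha ht
  have ea : ∀ i, q'.a i = [] := fun i => h1 i (ha i)
  have et : ∀ i, q'.t i = [] := fun i => h2 i (ht i)
  refine ⟨q', m, v, ⟨?_, ?_, fun i hi => absurd (ea i) hi, fun i hi => absurd (et i) hi, hn.adm,
    fun d i k hB => absurd (et d) (hn.b d i k hB).2.1⟩, le_rfl, l,
    fun i hi => absurd (ea i) hi, fun i hi => absurd (et i) hi⟩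
  · exact hn.fa
  · exact hn.ft

/-- AMB -/
theorem ao_amb (hlep : LEPStmt) (hdxn : DXNStmt) (hsep : SEPStmt) (hamo : AMOStmt) : AMBStmt := by
  intro ι T X p q vp vq hcap hle hT
  obtain ⟨m, hp⟩ := vp.pc
  obtain ⟨q', n, vq', hq, hmn, hl, hqa, hqt⟩ := amb_hi hdxn vq m
  have hcap' : ∀ i, i ∈ p.sp → i ∈ q'.sp → i ∈ X := by
    intro i h1 h2
    exact hcap i h1 (h2.imp (hqa i) (hqt i))
  have hle' : Le q' (p.rs X) := hlep.trans _ _ _ _ hl hle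
  obtain ⟨r, hr, l1, l2, hB, hra⟩ := hamo ι T X p q' m n vp vq' hp hq hmn hcap' hle' hT
  have pp : ∀ d i j m₁ m₂, p.B d i m₁ → p.B d j m₂ → r.a i = r.a j → i = j := by
    intro d i j m₁ m₂ h1 h2 h3
    have b1 := (hp.b d i m₁ h1).2.2.1
    have b2 := (hp.b d j m₂ h2).2.2.1
    refine vp.inj d i j m₁ m₂ h1 h2 ?_
    have e1 := List.prefix_iff_eq_take.1 (l1.a i)
    have e2 := List.prefix_iff_eq_take.1 (l1.a j)
    rw [e1, e2, hp.la i b1, hp.la j b2, h3]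
  have qq : ∀ d i j m₁ m₂, q'.B d i m₁ → q'.B d j m₂ → r.a i = r.a j → i = j := by
    intro d i j m₁ m₂ h1 h2 h3
    have b1 := (hq.b d i m₁ h1).2.2.1
    have b2 := (hq.b d j m₂ h2).2.2.1
    rw [hra i b1, hra j b2] at h3
    exact vq'.inj d i j m₁ m₂ h1 h2 h3
  have pq : ∀ d i j m₁ m₂, p.B d i m₁ → q'.B d j m₂ → r.a i = r.a j → i ≠ j →
      d ∈ X ∧ (p.a i ≠ [] ∧ i ∉ X) ∧ ¬ (p.a j ≠ [] ∧ j ∉ X) := by
    intro d i j m₁ m₂ h1 h2 h3 hne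
    have b1 := hp.b d i m₁ h1
    have b2 := hq.b d j m₂ h2
    have hd : d ∈ X := hcap' d (Or.inr b1.2.1) (Or.inr b2.2.1)
    refine ⟨hd, ⟨b1.2.2.1, fun hi => ?_⟩, fun hj => ?_⟩
    · exact hne (qq d i j m₁ m₂ (hle'.B d i m₁ ⟨hd, hi, h1⟩) h2 h3)
    · exact hj.2 (hcap' j (Or.inl hj.1) (Or.inl b2.2.2.1))
  obtain ⟨s, hs, hsl⟩ := hsep ι T r n {i | p.a i ≠ [] ∧ i ∉ X} hr (by
      intro d i j m₁ m₂ h1 h2 h3 hne
      rcases hB d i m₁ h1 with h1 | h1 <;> rcases hB d j m₂ h2 with h2 | h2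
      · exact absurd (pp d i j m₁ m₂ h1 h2 h3) hne
      · exact Or.inl (pq d i j m₁ m₂ h1 h2 h3 hne).2
      · have := (pq d j i m₂ m₁ h2 h1 h3.symm hne.symm).2
        exact Or.inr ⟨this.2, this.1⟩
      · exact absurd (qq d i j m₁ m₂ h1 h2 h3) hne) (by
      intro i hi d e j j' m₁ m₂ m₃ m₄ h1 h2 h3 hne h4 h5 h6 hne'
      have hiq : ∀ d k, ¬ q'.B d i k := by
        intro d k h
        exact hi.2 (hcap' i (Or.inl hi.1) (Or.inl (hq.b d i k h).2.2.1))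
      have k1 : p.B d i m₁ := (hB d i m₁ h1).resolve_right (hiq _ _)
      have k4 : p.B e i m₃ := (hB e i m₃ h4).resolve_right (hiq _ _)
      have k2 : q'.B d j m₂ := (hB d j m₂ h2).resolve_left
        (fun h => hne (pp d i j m₁ m₂ k1 h h3))
      have k5 : q'.B e j' m₄ := (hB e j' m₄ h5).resolve_left
        (fun h => hne' (pp e i j' m₃ m₄ k4 h h6))
      exact hT i (Or.inl hi.1) hi.2 d e (pq d i j m₁ m₂ k1 k2 h3 hne).1
        (pq e i j' m₃ m₄ k4 k5 h6 hne').1 (hp.b d i m₁ k1).1 (hp.b e i m₃ k4).1)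
  exact ⟨s, hs, hlep.trans _ _ _ _ hsl l1,
    hlep.trans _ _ _ _ (hlep.trans _ _ _ _ hsl l2) hl⟩

end AO.BP
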