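import Pool.Agent.H36.AO.PFin
import Mathlib.Data.List.GetD

/-!
Module AMO of project AO: the first step of the amalgamation.
-/

namespace AO.BP

theorem amo_fs (S : Finset (List ℕ)) : fs (Encodable.encode S) = S := by
  simp [fs, Encodable.encodek]

theorem amo_lv_prefix {u v : List ℕ} {k : ℕ} (h : u <+: v) (hk : k < u.length) :
    lv v k = lv u k := by
  obtain ⟨w, rfl⟩ := h
  unfold lv
  rw [List.getD_append _ _ _ _ hk]

/-- a path in an admissible sequence -/
theorem amo_path {u : List ℕ} (hu : prn u) {m n : ℕ} {s : List ℕ} (hs : s.length = m)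
    (hm : s ∈ lv u m) (hmn : m ≤ n) (hn : n < u.length) :
    ∃ s', s <+: s' ∧ s'.length = n ∧ ∀ k, m ≤ k → k ≤ n → s'.take k ∈ lv u k := by
  induction n, hmn using Nat.le_induction with
  | base =>
    refine ⟨s, List.prefix_rfl, hs, fun k h1 h2 => ?_⟩
    have hk : k = m := le_antisymm h2 h1
    subst hk
    rw [← hs, List.take_length, hs]
    exact hm
  | succ n hmn ih =>
    obtain ⟨s', h1, h2, h3⟩ := ih (by omega)
    have h4 : s' ∈ lv u n := by
      have := h3 n hmn le_rfl
      rwa [← h2, List.take_length, h2] at this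
    obtain ⟨x, hx⟩ := hu n s' hn h4
    refine ⟨s' ++ [x], h1.trans (List.prefix_append _ _), by simp [h2], fun k hk1 hk2 => ?_⟩
    rcases Nat.lt_or_ge n k with hk | hk
    · have hk' : k = n + 1 := by omega
      subst hk'
      rw [List.take_of_length_le (by simp [h2])]
      exact hx
    · rw [List.take_append_of_le_length (by omega)]
      exact h3 k hk1 hk

/-- an extension of an admissible sequence without splitting -/
theorem amo_ext {u : List ℕ} (hu : adm u) {m n : ℕ} (hl : u.length = m + 1) (hmn : m ≤ n)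
    (e : List ℕ → List ℕ)
    (he : ∀ s ∈ lv u m, s <+: e s ∧ (e s).length = s.length + (n - m)) :
    ∃ v, u <+: v ∧ v.length = n + 1 ∧ adm v ∧ ∀ k, m ≤ k → k ≤ n →
      lv v k = (lv u m).image (fun s => (e s).take (s.length + (k - m))) := by
  set w : List ℕ := (List.range (n - m)).map (fun j =>
    Encodable.encode ((lv u m).image (fun s => (e s).take (s.length + (j + 1))))) with hw
  have hwl : w.length = n - m := by simp [hw]
  have huw : u <+: u ++ w := List.prefix_append _ _
  have hlen : (u ++ w).length = n + 1 := by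
    rw [List.length_append, hl, hwl]; omega
  have hlv : ∀ k, m ≤ k → k ≤ n →
      lv (u ++ w) k = (lv u m).image (fun s => (e s).take (s.length + (k - m))) := by
    intro k hk1 hk2
    rcases Nat.eq_or_lt_of_le hk1 with rfl | hk
    · rw [amo_lv_prefix huw (by omega)]
      ext s
      rw [Finset.mem_image]
      constructor
      · intro hs
        refine ⟨s, hs, ?_⟩
        rw [Nat.sub_self, Nat.add_zero]
        exact (List.prefix_iff_eq_take.1 (he s hs).1).symm
      · rintro ⟨s', hs', h⟩
        rw [Nat.sub_self, Nat.add_zero, ← List.prefix_iff_eq_take.1 (he s' hs').1] at h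
        rwa [← h]
    · unfold lv
      rw [List.getD_append_right _ _ _ _ (by omega)]
      have h1 : w.getD (k - u.length) 0 = Encodable.encode ((lv u m).image
          (fun s => (e s).take (s.length + ((k - u.length) + 1)))) := by
        rw [List.getD_eq_getElem _ _ (by rw [hwl]; omega)]
        simp [hw]
      rw [h1, amo_fs]
      have h2 : k - u.length + 1 = k - m := by omega
      rw [h2]
      rfl
  refine ⟨u ++ w, huw, hlen, ⟨?_, ?_⟩, hlv⟩
  · intro k s x x' hk hs hne h1 h2
    rw [hlen] at hk
    rcases Nat.lt_or_ge k m with hkm | hkm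
    · rw [amo_lv_prefix huw (by omega)] at hs h1 h2
      have h3 := hu.sp k s x x' (by omega) hs hne h1 h2
      have h4 : (u ++ w).take (k + 1) = u.take (k + 1) :=
        List.take_append_of_le_length (by omega)
      rw [h4]
      exact h3
    · exfalso
      rw [hlv (k + 1) (by omega) (by omega), Finset.mem_image] at h1 h2
      obtain ⟨s0, hs0, e0⟩ := h1
      obtain ⟨s1, hs1, e1⟩ := h2
      have l0 := (he s0 hs0).2
      have l1 := (he s1 hs1).2
      have p0 := List.prefix_iff_eq_take.1 (he s0 hs0).1
      have p1 := List.prefix_iff_eq_take.1 (he s1 hs1).1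
      have k0 := congrArg List.length e0
      have k1 := congrArg List.length e1
      rw [List.length_take, l0, List.length_append] at k0
      rw [List.length_take, l1, List.length_append] at k1
      simp only [List.length_cons, List.length_nil] at k0 k1
      have hl01 : s0.length = s1.length := by omega
      have t0 : (e s0).take s0.length = s.take s0.length := by
        have h3 := congrArg (List.take s0.length) e0
        rw [List.take_take, List.take_append_of_le_length (by omega),
          min_eq_left (by omega)] at h3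
        exact h3
      have t1 : (e s1).take s1.length = s.take s1.length := by
        have h3 := congrArg (List.take s1.length) e1
        rw [List.take_take, List.take_append_of_le_length (by omega),
          min_eq_left (by omega)] at h3
        exact h3
      have h01 : s0 = s1 := by
        rw [p0, p1, t0, t1, hl01]
      subst h01
      rw [e0] at e1
      have := List.append_cancel_left e1
      simp at this
      exact hne this
  · intro k s hk hs
    rw [hlen] at hk
    rcases Nat.lt_or_ge k m with hkm | hkm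
    · rw [amo_lv_prefix huw (by omega)] at hs ⊢
      exact hu.pr k s (by omega) hs
    · rw [hlv k hkm (by omega), Finset.mem_image] at hs
      obtain ⟨s0, hs0, rfl⟩ := hs
      have l0 := (he s0 hs0).2
      have hlt : s0.length + (k - m) < (e s0).length := by omega
      refine ⟨(e s0)[s0.length + (k - m)], ?_⟩
      rw [hlv (k + 1) (by omega) (by omega), Finset.mem_image]
      refine ⟨s0, hs0, ?_⟩
      have h2 : k + 1 - m = (k - m) + 1 := by omega
      rw [h2, ← Nat.add_assoc, List.take_succ_eq_append_getElem hlt]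

theorem amo_adm_nil : adm [] :=
  ⟨fun k s x x' hk => absurd hk (by simp), fun k s hk => absurd hk (by simp)⟩

/-- AMO -/
theorem ao_amo : AMOStmt := by
  intro ι T X p q m n vp vq hp hq hmn hcap hle hT
  classical
  -- elements with data in `p` and in `q`
  have hXa : ∀ i, p.a i ≠ [] → q.a i ≠ [] → i ∈ X := fun i h1 h2 => hcap i (Or.inl h1) (Or.inl h2)
  have hXt : ∀ i, p.t i ≠ [] → q.t i ≠ [] → i ∈ X := fun i h1 h2 => hcap i (Or.inr h1) (Or.inr h2)
  have hpa : ∀ i, i ∈ X → p.a i <+: q.a i := by
    intro i hi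
    have h := hle.a i
    simpa [Cn.rs, hi] using h
  have hpt : ∀ d, d ∈ X → p.t d <+: q.t d := by
    intro d hd
    have h := hle.t d
    simpa [Cn.rs, hd] using h
  have hpB : ∀ d i k, d ∈ X → i ∈ X → p.B d i k → q.B d i k :=
    fun d i k hd hi h => hle.B d i k ⟨hd, hi, h⟩
  have hnX : ∀ i, p.a i ≠ [] → q.a i = [] → i ∉ X := by
    intro i h1 h2 hi
    have h3 := hpa i hi
    rw [h2] at h3
    exact h1 (List.prefix_nil.1 h3)
  -- the new lists `a`
  have hS : ∀ i, ∃ s, p.a i ≠ [] → q.a i = [] → p.a i <+: s ∧ s.length = n ∧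
      ∀ d ∈ X, ∀ k, p.B d i k → ∀ k', m ≤ k' → k' ≤ n → s.take k' ∈ lv (q.t d) k' := by
    intro i
    by_cases h1 : p.a i ≠ []
    swap
    · exact ⟨[], fun h => absurd h h1⟩
    by_cases h2 : q.a i = []
    swap
    · exact ⟨[], fun _ h => absurd h h2⟩
    have hla := hp.la i h1
    have hi := hnX i h1 h2
    by_cases h3 : ∃ d ∈ X, ∃ k, p.B d i k
    · obtain ⟨d, hd, k, hB⟩ := h3
      obtain ⟨b1, b2, b3, b4, b5⟩ := hp.b d i k hB
      have hlt := hp.lt d b2
      have hqt : q.t d ≠ [] := by
        intro h4
        have h5 := hpt d hd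
        rw [h4] at h5
        exact b2 (List.prefix_nil.1 h5)
      have h4 : p.a i ∈ lv (q.t d) m := by
        rw [amo_lv_prefix (hpt d hd) (by omega)]
        have h5 := b5 m b4 (by omega)
        rwa [← hla, List.take_length, hla] at h5
      obtain ⟨s, s1, s2, s3⟩ := amo_path (hq.adm d).pr hla h4 hmn (by rw [hq.lt d hqt]; omega)
      refine ⟨s, fun _ _ => ⟨s1, s2, fun d' hd' k' hB' k'' => ?_⟩⟩
      have h6 := (hp.b d' i k' hB').1
      have h7 := hT i (Or.inl h1) hi d d' hd hd' b1 h6
      subst h7
      exact s3 k''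
    · refine ⟨p.a i ++ List.replicate (n - m) 0, fun _ _ => ⟨List.prefix_append _ _, ?_, ?_⟩⟩
      · rw [List.length_append, hla, List.length_replicate]
        omega
      · intro d hd k hB
        exact absurd ⟨d, hd, k, hB⟩ h3
  choose S hS using hS
  set ra : ι → List ℕ := fun i => if q.a i ≠ [] then q.a i else if p.a i ≠ [] then S i else []
    with hra
  have ra1 : ∀ i, q.a i ≠ [] → ra i = q.a i := by
    intro i h
    simp only [hra]
    rw [if_pos h]
  have ra2 : ∀ i, q.a i = [] → p.a i ≠ [] → ra i = S i := by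
    intro i h h'
    simp only [hra]
    rw [if_neg (by simpa using h), if_pos h']
  have ra3 : ∀ i, ra i ≠ [] → p.a i ≠ [] ∨ q.a i ≠ [] := by
    intro i h
    by_contra hc
    push Not at hc
    apply h
    simp only [hra]
    rw [if_neg (by simpa using hc.2), if_neg (by simpa using hc.1)]
  have ra4 : ∀ i, p.a i ≠ [] → p.a i <+: ra i ∧ (ra i).length = n := by
    intro i h
    by_cases h2 : q.a i = []
    · rw [ra2 i h2 h]
      exact ⟨(hS i h h2).1, (hS i h h2).2.1⟩
    · rw [ra1 i h2]
      exact ⟨hpa i (hXa i h h2), hq.la i h2⟩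
  have ra5 : ∀ i, ra i ≠ [] → (ra i).length = n := by
    intro i h
    rcases ra3 i h with h1 | h1
    · exact (ra4 i h1).2
    · rw [ra1 i h1]
      exact hq.la i h1
  -- the new lists `t`
  have hU : ∀ d, ∃ v : List ℕ, p.t d ≠ [] → q.t d = [] → p.t d <+: v ∧ v.length = n + 1 ∧
      adm v ∧ ∀ j k, p.B d j k → ∀ k', k ≤ k' → k' ≤ n → (ra j).take k' ∈ lv v k' := by
    intro d
    by_cases h1 : p.t d ≠ []
    swap
    · exact ⟨[], fun h => absurd h h1⟩
    have hlt := hp.lt d h1
    let e : List ℕ → List ℕ := fun s =>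
      if h : ∃ j, (∃ k, p.B d j k) ∧ p.a j = s then ra h.choose else s ++ List.replicate (n - m) 0
    have he1 : ∀ j k, p.B d j k → e (p.a j) = ra j := by
      intro j k hB
      have h : ∃ j', (∃ k, p.B d j' k) ∧ p.a j' = p.a j := ⟨j, ⟨k, hB⟩, rfl⟩
      have h2 : e (p.a j) = ra h.choose := dif_pos h
      rw [h2]
      obtain ⟨⟨k', hB'⟩, h3⟩ := h.choose_spec
      rw [vp.inj d _ j k' k hB' hB h3]
    have he2 : ∀ s ∈ lv (p.t d) m, s <+: e s ∧ (e s).length = s.length + (n - m) := by
      intro s _
      by_cases h : ∃ j, (∃ k, p.B d j k) ∧ p.a j = s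
      · obtain ⟨j, ⟨k, hB⟩, rfl⟩ := h
        rw [he1 j k hB]
        have h3 := (hp.b d j k hB).2.2.1
        refine ⟨(ra4 j h3).1, ?_⟩
        rw [(ra4 j h3).2, hp.la j h3]
        omega
      · have h2 : e s = s ++ List.replicate (n - m) 0 := dif_neg h
        rw [h2]
        exact ⟨List.prefix_append _ _, by simp⟩
    obtain ⟨v, v1, v2, v3, v4⟩ := amo_ext (hp.adm d) hlt hmn e he2
    refine ⟨v, fun _ _ => ⟨v1, v2, v3, fun j k hB k' hk1 hk2 => ?_⟩⟩
    obtain ⟨b1, b2, b3, b4, b5⟩ := hp.b d j k hB
    have hla := hp.la j b3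
    rcases Nat.lt_or_ge k' m with hk | hk
    · rw [amo_lv_prefix v1 (by omega)]
      have h5 := b5 k' hk1 (by omega)
      obtain ⟨z, hz⟩ := (ra4 j b3).1
      rw [← hz, List.take_append_of_le_length (by omega)]
      exact h5
    · rw [v4 k' hk hk2, Finset.mem_image]
      refine ⟨p.a j, ?_, ?_⟩
      · have h5 := b5 m b4 (by omega)
        rwa [← hla, List.take_length, hla] at h5
      · rw [he1 j k hB, hla]
        congr 1
        omega
  choose U hU using hU
  set rt : ι → List ℕ := fun d => if q.t d ≠ [] then q.t d else if p.t d ≠ [] then U d else []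
    with hrt
  have rt1 : ∀ i, q.t i ≠ [] → rt i = q.t i := by
    intro i h
    simp only [hrt]
    rw [if_pos h]
  have rt2 : ∀ i, q.t i = [] → p.t i ≠ [] → rt i = U i := by
    intro i h h'
    simp only [hrt]
    rw [if_neg (by simpa using h), if_pos h']
  have rt3 : ∀ i, q.t i = [] → p.t i = [] → rt i = [] := by
    intro i h h'
    simp only [hrt]
    rw [if_neg (by simpa using h), if_neg (by simpa using h')]
  have rtp : ∀ d, p.t d ≠ [] → p.t d <+: rt d ∧ (rt d).length = n + 1 := by
    intro i h
    by_cases h2 : q.t i = []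
    · rw [rt2 i h2 h]
      exact ⟨(hU i h h2).1, (hU i h h2).2.1⟩
    · rw [rt1 i h2]
      exact ⟨hpt i (hXt i h h2), hq.lt i h2⟩
  have rt4 : ∀ d, rt d ≠ [] → p.t d ≠ [] ∨ q.t d ≠ [] := by
    intro d h
    by_contra hc
    push Not at hc
    exact h (rt3 d hc.2 hc.1)
  have hne : ∀ {u v : List ℕ}, u <+: v → u ≠ [] → v ≠ [] := by
    intro u v h h1 h2
    rw [h2] at h
    exact h1 (List.prefix_nil.1 h)
  refine ⟨⟨ra, rt, fun d i k => p.B d i k ∨ q.B d i k⟩, ⟨?_, ?_, ra5, ?_, ?_, ?_⟩, ⟨?_, ?_, ?_⟩,
    ⟨?_, ?_, ?_⟩, fun d i k h => h, ra1⟩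
  · exact (hp.fa.union hq.fa).subset fun i hi => ra3 i hi
  · exact (hp.ft.union hq.ft).subset fun i hi => rt4 i hi
  · intro d hd
    rcases rt4 d hd with h | h
    · exact (rtp d h).2
    · show (rt d).length = n + 1
      rw [rt1 d h]
      exact hq.lt d h
  · intro d
    show adm (rt d)
    by_cases h2 : q.t d = []
    · by_cases h1 : p.t d = []
      · rw [rt3 d h2 h1]
        exact amo_adm_nil
      · rw [rt2 d h2 h1]
        exact (hU d h1 h2).2.2.1
    · rw [rt1 d h2]
      exact hq.adm d
  · rintro d i k (h | h)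
    · obtain ⟨b1, b2, b3, b4, b5⟩ := hp.b d i k h
      refine ⟨b1, hne (rtp d b2).1 b2, hne (ra4 i b3).1 b3, by omega, ?_⟩
      show ad k (rt d) (ra i)
      intro k' hk1 hk2
      rw [(ra4 i b3).2] at hk2
      by_cases h2 : q.t d = []
      · rw [rt2 d h2 b2]
        exact (hU d b2 h2).2.2.2 i k h k' hk1 hk2
      · have hd := hXt d b2 h2
        rw [rt1 d h2]
        by_cases h3 : q.a i = []
        · rcases Nat.lt_or_ge k' m with hk | hk
          · have hla := hp.la i b3
            have hlt := hp.lt d b2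
            rw [amo_lv_prefix (hpt d hd) (by omega)]
            have h5 := b5 k' hk1 (by omega)
            obtain ⟨z, hz⟩ := (ra4 i b3).1
            rw [← hz, List.take_append_of_le_length (by omega)]
            exact h5
          · rw [ra2 i h3 b3]
            exact (hS i b3 h3).2.2 d hd k h k' hk hk2
        · have hi := hXa i b3 h3
          obtain ⟨c1, c2, c3, c4, c5⟩ := hq.b d i k (hpB d i k hd hi h)
          rw [ra1 i h3]
          exact c5 k' hk1 (by rw [hq.la i h3]; exact hk2)
    · obtain ⟨b1, b2, b3, b4, b5⟩ := hq.b d i k h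
      show T d i ∧ rt d ≠ [] ∧ ra i ≠ [] ∧ k ≤ n ∧ ad k (rt d) (ra i)
      rw [rt1 d b2, ra1 i b3]
      exact ⟨b1, b2, b3, b4, b5⟩
  · intro i
    show p.a i <+: ra i
    by_cases h : p.a i = []
    · rw [h]
      exact List.nil_prefix
    · exact (ra4 i h).1
  · intro i
    show p.t i <+: rt i
    by_cases h : p.t i = []
    · rw [h]
      exact List.nil_prefix
    · exact (rtp i h).1
  · exact fun d i k h => Or.inl h
  · intro i
    show q.a i <+: ra i
    by_cases h : q.a i = []
    · rw [h]
      exact List.nil_prefix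
    · rw [ra1 i h]
  · intro i
    show q.t i <+: rt i
    by_cases h : q.t i = []
    · rw [h]
      exact List.nil_prefix
    · rw [rt1 i h]
  · exact fun d i k h => Or.inr h

end AO.BP
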