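import Pool.Agent.H36.AO.PStmts

/-!
Module GNR of project AO: the generic sequences.
-/

set_option linter.unusedVariables false
set_option synthInstance.maxSize 100000

namespace AO.BP

open SW

section
variable {M : Type} [SetStr M] [ZF M]

theorem gnr_a {l p : M} {c : Cn (Ix l)} (h : Enc l p c) (i : Ix l) (k v : ℕ) :
    E (fct (nu 0) (nu (Nat.pair k v)) i.1 i.1) p ↔ (c.a i)[k]? = some v := by
  rw [h]
  constructor
  · rintro (⟨i', k', v', h1, h2⟩ | ⟨i', k', v', h1, h2⟩ | ⟨d, i', m, h1, h2⟩)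
    · rw [fct_inj] at h2
      obtain ⟨_, h3, h4, _⟩ := h2
      have h5 := Nat.pair_eq_pair.1 (CUR.nu_inj h3)
      have h6 : i = i' := Subtype.ext h4
      rw [h5.1, h5.2, h6]
      exact h1
    · rw [fct_inj] at h2
      exact absurd (CUR.nu_inj h2.1) (by norm_num)
    · rw [fct_inj] at h2
      exact absurd (CUR.nu_inj h2.1) (by norm_num)
  · intro h
    exact Or.inl ⟨i, k, v, h, rfl⟩

theorem gnr_t {l p : M} {c : Cn (Ix l)} (h : Enc l p c) (i : Ix l) (k v : ℕ) :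
    E (fct (nu 1) (nu (Nat.pair k v)) i.1 i.1) p ↔ (c.t i)[k]? = some v := by
  rw [h]
  constructor
  · rintro (⟨i', k', v', h1, h2⟩ | ⟨i', k', v', h1, h2⟩ | ⟨d, i', m, h1, h2⟩)
    · rw [fct_inj] at h2
      exact absurd (CUR.nu_inj h2.1) (by norm_num)
    · rw [fct_inj] at h2
      obtain ⟨_, h3, h4, _⟩ := h2
      have h5 := Nat.pair_eq_pair.1 (CUR.nu_inj h3)
      have h6 : i = i' := Subtype.ext h4
      rw [h5.1, h5.2, h6]
      exact h1
    · rw [fct_inj] at h2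
      exact absurd (CUR.nu_inj h2.1) (by norm_num)
  · intro h
    exact Or.inr (Or.inl ⟨i, k, v, h, rfl⟩)

theorem gnr_B {l p : M} {c : Cn (Ix l)} (h : Enc l p c) (d i : Ix l) (m : ℕ) :
    E (fct (nu 2) (nu m) d.1 i.1) p ↔ c.B d i m := by
  rw [h]
  constructor
  · rintro (⟨i', k', v', h1, h2⟩ | ⟨i', k', v', h1, h2⟩ | ⟨d', i', m', h1, h2⟩)
    · rw [fct_inj] at h2
      exact absurd (CUR.nu_inj h2.1) (by norm_num)
    · rw [fct_inj] at h2
      exact absurd (CUR.nu_inj h2.1) (by norm_num)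
    · rw [fct_inj] at h2
      obtain ⟨_, h3, h4, h5⟩ := h2
      have h6 : d = d' := Subtype.ext h4
      have h7 : i = i' := Subtype.ext h5
      rw [CUR.nu_inj h3, h6, h7]
      exact h1
  · intro h
    exact Or.inr (Or.inr ⟨d, i, m, h, rfl⟩)

theorem gnr_get_prefix {u v : List ℕ} (h : u <+: v) {k x : ℕ} (hk : u[k]? = some x) :
    v[k]? = some x := by
  obtain ⟨w, rfl⟩ := h
  have hl : k < u.length := by
    by_contra hc
    rw [List.getElem?_eq_none (by omega)] at hk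
    exact absurd hk (by simp)
  rw [List.getElem?_append_left hl]
  exact hk

theorem gnr_sub {l p q : M} {c d : Cn (Ix l)} (h : Enc l p c) (h' : Enc l q d) (hle : Le d c) :
    Sub p q := by
  intro z hz
  rw [h] at hz
  rw [h']
  rcases hz with ⟨i, k, v, h1, h2⟩ | ⟨i, k, v, h1, h2⟩ | ⟨e, i, m, h1, h2⟩
  · exact Or.inl ⟨i, k, v, gnr_get_prefix (hle.a i) h1, h2⟩
  · exact Or.inr (Or.inl ⟨i, k, v, gnr_get_prefix (hle.t i) h1, h2⟩)
  · exact Or.inr (Or.inr ⟨e, i, m, hle.B e i m h1, h2⟩)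

/-- a list all of whose entries are values of `a` -/
theorem gnr_ini {u : List ℕ} {a : ℕ → ℕ} {n : ℕ} (h : ∀ k v, u[k]? = some v → a k = v)
    (hn : n ≤ u.length) : u.take n = ini a n := by
  apply List.ext_getElem
  · simp [ini, hn]
  · intro k h1 h2
    have h3 : k < n := by
      rw [List.length_take] at h1
      omega
    have h4 : k < u.length := by omega
    have h5 := h k u[k] (List.getElem?_eq_getElem h4)
    simp [ini, h5]

theorem gnr_len {u : List ℕ} {k v : ℕ} (h : u[k]? = some v) : k < u.length := by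
  by_contra hc
  rw [List.getElem?_eq_none (by omega)] at h
  exact absurd h (by simp)

end

/-- GNR -/
theorem ao_gnr (hdxn : DXNStmt) : GNRStmt := by
  intro M _ _ l T F G hmr hF hG
  have h3 : Cl3 (fun x y z : M => RR (RP 0) x y z) := RR_df hmr.std (hmr.has 0)
  have inst : ∀ {n : ℕ} {t s u : (Fin n → M) → M} [DfT t] [DfT s] [DfT u],
      Df (fun v => RR (RP 0) (t v) (s v) (u v)) := fun {n t s u} ht hs hu => h3.comp3 ht hs hu
  have hRR : ∀ k v : ℕ, RR (RP 0) (nu (Nat.pair k v) : M) (nu k) (nu v) := fun k v =>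
    ⟨![Nat.pair k v, k, v, 0, 0], rfl, rfl, rfl, rfl⟩
  have hRR' : ∀ (y x : M) (k : ℕ), RR (RP 0) y (nu k) x → ∃ v, y = nu (Nat.pair k v) ∧ x = nu v := by
    rintro y x k ⟨t, ht, h1, h2, h3⟩
    have ht' : t 0 = Nat.pair (t 1) (t 2) := ht
    have h4 := CUR.nu_inj h2
    exact ⟨t 2, by rw [h1, ht', ← h4], h3⟩
  have hdir : ∀ {p q : M}, G p → G q → ∃ r, G r ∧ Sub p r ∧ Sub q r := by
    intro p q hp hq
    obtain ⟨r, h1, h2, h3⟩ := hG.dir p q hp hq
    exact ⟨r, h1, (hF.le _ _).1 h2, (hF.le _ _).1 h3⟩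
  have hen : ∀ {p : M}, G p → ∃ c : Cn (Ix l), VC (Tt l T) c ∧ Enc l p c := fun hp =>
    (hF.P _).1 (hG.sub _ hp)
  have hex : ∀ {c : Cn (Ix l)} {p : M} {c0 : Cn (Ix l)}, Enc l p c0 → VC (Tt l T) c → Le c c0 →
      ∃ q, E q F.P ∧ F.le q p ∧ Enc l q c := by
    intro c p c0 h0 hc hl
    obtain ⟨q, hq⟩ := hF.ex c hc
    exact ⟨q, (hF.P q).2 ⟨c, hc, hq⟩, (hF.le _ _).2 (gnr_sub h0 hq hl), hq⟩
  -- entries
  have ea : ∀ (i : Ix l) (k : ℕ), ∃ v, ∃ p, G p ∧ E (fct (nu 0) (nu (Nat.pair k v)) i.1 i.1) p := by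
    intro i k
    have hC : Cl (fun q : M => ∃ y x : M, E (fct (nu 0) y i.1 i.1) q ∧ RR (RP 0) y (nu k) x) := by
      infer_instance
    obtain ⟨p, hp, y, x, h1, h2⟩ := (genF hG).meetC _ hC (by
      intro p hp
      obtain ⟨c, hc, he⟩ := (hF.P p).1 hp
      obtain ⟨c', v', l', hl⟩ := hdxn.ea _ _ c i (k + 1) hc
      obtain ⟨q, hq, hqp, heq⟩ := hex he v' l'
      refine ⟨q, hq, hqp, nu (Nat.pair k (c'.a i)[k]), nu (c'.a i)[k], ?_, hRR _ _⟩
      rw [gnr_a heq]
      exact List.getElem?_eq_getElem _)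
    obtain ⟨v, rfl, rfl⟩ := hRR' y x k h2
    exact ⟨v, p, hp, h1⟩
  have et : ∀ (i : Ix l) (k : ℕ), ∃ v, ∃ p, G p ∧ E (fct (nu 1) (nu (Nat.pair k v)) i.1 i.1) p := by
    intro i k
    have hC : Cl (fun q : M => ∃ y x : M, E (fct (nu 1) y i.1 i.1) q ∧ RR (RP 0) y (nu k) x) := by
      infer_instance
    obtain ⟨p, hp, y, x, h1, h2⟩ := (genF hG).meetC _ hC (by
      intro p hp
      obtain ⟨c, hc, he⟩ := (hF.P p).1 hp
      obtain ⟨c', v', l', hl⟩ := hdxn.et _ _ c i (k + 1) hc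
      obtain ⟨q, hq, hqp, heq⟩ := hex he v' l'
      refine ⟨q, hq, hqp, nu (Nat.pair k (c'.t i)[k]), nu (c'.t i)[k], ?_, hRR _ _⟩
      rw [gnr_t heq]
      exact List.getElem?_eq_getElem _)
    obtain ⟨v, rfl, rfl⟩ := hRR' y x k h2
    exact ⟨v, p, hp, h1⟩
  choose a ha using ea
  choose t ht using et
  have hau : ∀ (i : Ix l) (k v : ℕ) (p : M), G p → E (fct (nu 0) (nu (Nat.pair k v)) i.1 i.1) p →
      a i k = v := by
    intro i k v p hp h
    obtain ⟨q, hq, h'⟩ := ha i k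
    obtain ⟨r, hr, h1, h2⟩ := hdir hp hq
    obtain ⟨c, hc, he⟩ := hen hr
    have e1 := (gnr_a he i k v).1 (h1 _ h)
    have e2 := (gnr_a he i k (a i k)).1 (h2 _ h')
    rw [e1] at e2
    exact (Option.some_injective _ e2).symm
  have htu : ∀ (i : Ix l) (k v : ℕ) (p : M), G p → E (fct (nu 1) (nu (Nat.pair k v)) i.1 i.1) p →
      t i k = v := by
    intro i k v p hp h
    obtain ⟨q, hq, h'⟩ := ht i k
    obtain ⟨r, hr, h1, h2⟩ := hdir hp hq
    obtain ⟨c, hc, he⟩ := hen hr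
    have e1 := (gnr_t he i k v).1 (h1 _ h)
    have e2 := (gnr_t he i k (t i k)).1 (h2 _ h')
    rw [e1] at e2
    exact (Option.some_injective _ e2).symm
  refine ⟨a, t, ?_, ?_, ?_, ?_, ?_⟩
  · intro i j
    constructor
    · rintro ⟨p, hp, h⟩
      refine hau i _ _ p hp ?_
      rw [Nat.pair_unpair]
      exact h
    · intro h
      obtain ⟨p, hp, h'⟩ := ha i (Nat.unpair j).1
      rw [h, Nat.pair_unpair] at h'
      exact ⟨p, hp, h'⟩
  · intro i j
    constructor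
    · rintro ⟨p, hp, h⟩
      refine htu i _ _ p hp ?_
      rw [Nat.pair_unpair]
      exact h
    · intro h
      obtain ⟨p, hp, h'⟩ := ht i (Nat.unpair j).1
      rw [h, Nat.pair_unpair] at h'
      exact ⟨p, hp, h'⟩
  · intro d i hdi
    -- a condition with long lists above a given condition
    have hlong : ∀ (p : M) (n : ℕ), G p → ∃ q c, G q ∧ Sub p q ∧ VC (Tt l T) c ∧ Enc l q c ∧
        n < (c.a i).length ∧ n < (c.t d).length := by
      intro p n hp
      obtain ⟨q1, hq1, h1⟩ := ha i n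
      obtain ⟨q2, hq2, h2⟩ := ht d n
      obtain ⟨r1, hr1, k1, k2⟩ := hdir hp hq1
      obtain ⟨r2, hr2, k3, k4⟩ := hdir hr1 hq2
      obtain ⟨c, hc, he⟩ := hen hr2
      exact ⟨r2, c, hr2, k1.trans k3, hc, he, gnr_len ((gnr_a he i n _).1 (k3 _ (k2 _ h1))),
        gnr_len ((gnr_t he d n _).1 (k4 _ h2))⟩
    have hlva : ∀ (q : M) (c : Cn (Ix l)) (n : ℕ), G q → Enc l q c → n ≤ (c.a i).length →
        (c.a i).take n = ini (a i) n := by
      intro q c n hq he hn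
      exact gnr_ini (fun k v h => hau i k v q hq ((gnr_a he i k v).2 h)) hn
    have hlvt : ∀ (q : M) (c : Cn (Ix l)) (n : ℕ), G q → Enc l q c → n ≤ (c.t d).length →
        (c.t d).take n = ini (t d) n := by
      intro q c n hq he hn
      exact gnr_ini (fun k v h => htu d k v q hq ((gnr_t he d k v).2 h)) hn
    have hlv : ∀ (q : M) (c : Cn (Ix l)) (n : ℕ), G q → Enc l q c → n < (c.t d).length →
        lv (c.t d) n = fs (t d n) := by
      intro q c n hq he hn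
      unfold lv
      have h1 := List.getElem?_eq_getElem hn
      rw [List.getD_eq_getElem?_getD, h1, Option.getD_some,
        htu d n _ q hq ((gnr_t he d n _).2 h1)]
    constructor
    · intro n s x x' hs hne h1 h2
      obtain ⟨p, hp⟩ : ∃ p, G p := ⟨_, hG.one⟩
      obtain ⟨q, c, hq, _, hc, he, _, hlen⟩ := hlong p (n + 1) hp
      obtain ⟨N, hN⟩ := hc.pc
      have h3 := (hN.adm d).sp n s x x' (by omega) (by rw [hlv q c n hq he (by omega)]; exact hs)
        hne (by rw [hlv q c (n + 1) hq he hlen]; exact h1)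
        (by rw [hlv q c (n + 1) hq he hlen]; exact h2)
      rw [hlvt q c (n + 1) hq he (by omega)] at h3
      exact h3
    · have hC : Cl (fun q : M => ∃ y : M, E y om ∧ E (fct (nu 2) y d.1 i.1) q) := by
        infer_instance
      obtain ⟨p, hp, y, hy, h1⟩ := (genF hG).meetC _ hC (by
        intro p hp
        obtain ⟨c, hc, he⟩ := (hF.P p).1 hp
        obtain ⟨c', v', l', m, hm⟩ := hdxn.eb _ _ c d i hc hdi
        obtain ⟨q, hq, hqp, heq⟩ := hex he v' l'
        exact ⟨q, hq, hqp, nu m, CUR.nu_mem_om m, (gnr_B heq d i m).2 hm⟩)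
      obtain ⟨m, rfl⟩ := hmr.std y hy
      refine ⟨m, fun n hn => ?_⟩
      obtain ⟨q, c, hq, hpq, hc, he, hla, hlt⟩ := hlong p n hp
      obtain ⟨N, hN⟩ := hc.pc
      have h2 := (gnr_B he d i m).1 (hpq _ h1)
      have h3 := (hN.b d i m h2).2.2.2.2 n hn (by omega)
      rw [hlva q c n hq he (by omega), hlv q c n hq he hlt] at h3
      exact h3
  · intro i j hij
    by_contra hne
    have hC : Cl (fun q : M => ∃ k x x' y y' : M, E k om ∧ E (fct (nu 0) y i.1 i.1) q ∧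
        E (fct (nu 0) y' j.1 j.1) q ∧ RR (RP 0) y k x ∧ RR (RP 0) y' k x' ∧ x ≠ x') := by
      infer_instance
    obtain ⟨p, hp, k, x, x', y, y', hk, h1, h2, h3, h4, h5⟩ := (genF hG).meetC _ hC (by
      intro p hp
      obtain ⟨c, hc, he⟩ := (hF.P p).1 hp
      obtain ⟨c', v', l', k, v, w, k1, k2, k3⟩ := hdxn.da _ _ c i j hc hne
      obtain ⟨q, hq, hqp, heq⟩ := hex he v' l'
      exact ⟨q, hq, hqp, nu k, nu v, nu w, nu (Nat.pair k v), nu (Nat.pair k w),
        CUR.nu_mem_om k, (gnr_a heq i k v).2 k1, (gnr_a heq j k w).2 k2, hRR _ _, hRR _ _,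
        fun h => k3 (CUR.nu_inj h)⟩)
    obtain ⟨k, rfl⟩ := hmr.std k hk
    obtain ⟨v, rfl, rfl⟩ := hRR' y x k h3
    obtain ⟨w, rfl, rfl⟩ := hRR' y' x' k h4
    have e1 := hau i k v p hp h1
    have e2 := hau j k w p hp h2
    rw [← e1, ← e2, hij] at h5
    exact h5 rfl
  · intro i j hij
    by_contra hne
    have hC : Cl (fun q : M => ∃ k x x' y y' : M, E k om ∧ E (fct (nu 1) y i.1 i.1) q ∧
        E (fct (nu 1) y' j.1 j.1) q ∧ RR (RP 0) y k x ∧ RR (RP 0) y' k x' ∧ x ≠ x') := by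
      infer_instance
    obtain ⟨p, hp, k, x, x', y, y', hk, h1, h2, h3, h4, h5⟩ := (genF hG).meetC _ hC (by
      intro p hp
      obtain ⟨c, hc, he⟩ := (hF.P p).1 hp
      obtain ⟨c', v', l', k, v, w, k1, k2, k3⟩ := hdxn.dt _ _ c i j hc hne
      obtain ⟨q, hq, hqp, heq⟩ := hex he v' l'
      exact ⟨q, hq, hqp, nu k, nu v, nu w, nu (Nat.pair k v), nu (Nat.pair k w),
        CUR.nu_mem_om k, (gnr_t heq i k v).2 k1, (gnr_t heq j k w).2 k2, hRR _ _, hRR _ _,
        fun h => k3 (CUR.nu_inj h)⟩)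
    obtain ⟨k, rfl⟩ := hmr.std k hk
    obtain ⟨v, rfl, rfl⟩ := hRR' y x k h3
    obtain ⟨w, rfl, rfl⟩ := hRR' y' x' k h4
    have e1 := htu i k v p hp h1
    have e2 := htu j k w p hp h2
    rw [← e1, ← e2, hij] at h5
    exact h5 rfl

end AO.BP
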