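import Pool.Agent.H36.AO.PStmts

/-!
Module KLB of project AO: old neighbours of a new real of the first side.
-/

set_option linter.unusedVariables false
set_option synthInstance.maxSize 100000

namespace AO.BP

open SW

section
variable {M : Type} [SetStr M] [ZF M]

theorem klb_vl {G : M → Prop} {σ : M} {j : ℕ} :
    vl G σ j = true ↔ ∃ q, G q ∧ E (opair (nu j) q) σ := by
  simp only [vl, decide_eq_true_eq]

theorem klb_gc {a : ℕ → ℕ} {j : ℕ} : gc a j = true ↔ a (Nat.unpair j).1 = (Nat.unpair j).2 := by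
  unfold gc
  exact decide_eq_true_iff

theorem klb_sub {P C X τ : M} (h : Sub C X) (hτ : Sub τ (prod om (PD P C))) :
    Sub τ (prod om (PD P X)) := by
  intro z hz
  obtain ⟨j, q, hj, hq, rfl⟩ := mem_prod'.1 (hτ z hz)
  rw [mem_prod]
  rw [mem_PD] at hq
  exact ⟨hj, mem_PD.2 ⟨hq.1, hq.2.trans h⟩⟩

theorem klb_subP {P C τ : M} (hτ : Sub τ (prod om (PD P C))) : Sub τ (prod om P) := by
  intro z hz
  obtain ⟨j, q, hj, hq, rfl⟩ := mem_prod'.1 (hτ z hz)
  rw [mem_prod]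
  exact ⟨hj, (mem_PD.1 hq).1⟩

/-- the name used in the proof -/
noncomputable def klbR (P X D s τ : M) : M :=
  sep (prod om (PD P D)) (fun z => ∃ j p, z = opair j (rst p D) ∧ E p (PD P X) ∧ Sub s p ∧
    Fo P τ p j)

theorem mem_klbR {P X D s τ z : M} : E z (klbR P X D s τ) ↔ E z (prod om (PD P D)) ∧
    ∃ j p, z = opair j (rst p D) ∧ E p (PD P X) ∧ Sub s p ∧ Fo P τ p j := by
  unfold klbR
  rw [mem_sep' inferInstance]

end

/-- KLB -/
theorem ao_klb (hgcf : GCFStmt) (hvlf : VLFStmt) (hokv : OKVStmt) (hkcb : KCBStmt) :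
    KLBStmt := by
  intro M _ _ F G X D C hmr hri hG hX hD hDX hCX hXDC τ hτ hnew m s
  have vf := hvlf M F G hri hG
  have hτX := klb_sub hCX hτ
  have hτP := klb_subP hτ
  have hdir : ∀ {p q : M}, G p → G q → ∃ r, G r ∧ Sub p r ∧ Sub q r := by
    intro p q hp hq
    obtain ⟨r, h1, h2, h3⟩ := hG.dir p q hp hq
    exact ⟨r, h1, (hri _ _).1 h2, (hri _ _).1 h3⟩
  have hrD : ∀ {p : M}, G p → G (rst p D) := fun {p} hp =>
    hG.up p _ hp (mem_PD.1 (hD.rs p (hG.sub p hp))).1 ((hri _ _).2 (hD.le p))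
  by_cases hex : ∃ g σ, G g ∧ E g (PD F.P X) ∧ Sub σ (prod om (PD F.P D)) ∧
      OK F.P g σ τ m ∧ rst g C = s
  swap
  · refine ⟨0, fun g g' σ σ' h1 _ h2 _ h3 _ h4 _ h5 _ _ => ?_⟩
    exact absurd ⟨g, σ, h1, h2, h3, h4, h5⟩ hex
  obtain ⟨g0, σ0, hg0, hg0X, hσ0, hok0, hs0⟩ := hex
  obtain ⟨a0, t, _, ht⟩ := hokv M F G hmr hri hG σ0 τ g0 m (klb_subP hσ0) hτP hg0 hok0
  have hsg0 : Sub s g0 := by
    rw [← hs0]
    intro z hz
    exact (mem_rst.1 hz).1
  -- conditions in the filter which force the true values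
  have htrue : ∀ k, ∃ p, G p ∧ E p (PD F.P X) ∧ Sub s p ∧ Fo F.P τ p (nu (Nat.pair k (t k))) := by
    intro k
    obtain ⟨p, h1, h2, h3, h4⟩ := vf.segX X τ t (k + 1) g0 hX hτX ht hg0 hg0X
    exact ⟨p, h1, h2, hsg0.trans h3, h4 k (t k) (hgcf.get t (k + 1) k (by omega))⟩
  have hρ := hnew (klbR F.P X D s τ) (fun z hz => (mem_klbR.1 hz).1)
  have hle : ∀ j, vl G τ j = true → vl G (klbR F.P X D s τ) j = true := by
    intro j hj
    rw [ht, klb_gc] at hj
    obtain ⟨p, h1, h2, h3, h4⟩ := htrue (Nat.unpair j).1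
    rw [hj, Nat.pair_unpair] at h4
    rw [klb_vl]
    refine ⟨rst p D, hrD h1, mem_klbR.2 ⟨?_, nu j, p, rfl, h2, h3, h4⟩⟩
    rw [mem_prod]
    exact ⟨CUR.nu_mem_om j, hD.rs p (mem_PD.1 h2).1⟩
  obtain ⟨j, hj1, hj2⟩ : ∃ j, vl G (klbR F.P X D s τ) j = true ∧ vl G τ j = false := by
    by_contra hc
    push Not at hc
    apply hρ
    funext j
    have h1 := hc j
    have h2 := hle j
    cases h3 : vl G (klbR F.P X D s τ) j <;> cases h4 : vl G τ j
    · rfl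
    · rw [h2 h4] at h3
      exact absurd h3 (by simp)
    · exact absurd h4 (h1 h3)
    · rfl
  obtain ⟨q, hq, hqr⟩ := klb_vl.1 hj1
  obtain ⟨_, j', p2, hjp, hp2X, hsp2, hfo2⟩ := mem_klbR.1 hqr
  rw [opair_inj] at hjp
  obtain ⟨rfl, rfl⟩ := hjp
  have hvt : t (Nat.unpair j).1 ≠ (Nat.unpair j).2 := by
    intro h
    rw [ht, klb_gc.2 h] at hj2
    exact absurd hj2 (by simp)
  obtain ⟨p1, hp1, hp1X, hsp1, hfo1⟩ := htrue (Nat.unpair j).1
  generalize hk : (Nat.unpair j).1 = k at *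
  generalize hv : (Nat.unpair j).2 = v at *
  have hjkv : j = Nat.pair k v := by rw [← hk, ← hv, Nat.pair_unpair]
  rw [hjkv] at hfo2
  refine ⟨max (k + 1) m, fun g g' σ σ' hg hg' hgX hg'X hσ hσ' hok hok' hgs hgs' hag => ?_⟩
  obtain ⟨a, t1, ha, ht1⟩ := hokv M F G hmr hri hG σ τ g m (klb_subP hσ) hτP hg hok
  obtain ⟨a', t2, ha', ht2⟩ := hokv M F G hmr hri hG σ' τ g' m (klb_subP hσ') hτP hg' hok'
  by_contra hne
  have haa : a ≠ a' := by
    intro h
    apply hne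
    rw [ha, ha', h]
  have hdiff : ∃ l, a l ≠ a' l := Function.ne_iff.1 haa
  classical
  set l := Nat.find hdiff with hl
  have hl1 : a l ≠ a' l := Nat.find_spec hdiff
  have hl2 : ∀ i, i < l → a i = a' i := fun i hi => by
    by_contra h
    exact Nat.find_min hdiff hi h
  have hln : max (k + 1) m ≤ l := by
    by_contra hc
    push Not at hc
    have h1 := hag (Nat.pair l (a l)) (by rw [Nat.unpair_pair]; exact hc)
    have h2 : vl G σ (Nat.pair l (a l)) = true := by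
      rw [ha, klb_gc, Nat.unpair_pair]
    rw [h1, ha', klb_gc, Nat.unpair_pair] at h2
    exact hl1 h2.symm
  have hkl : k ≤ l := by have := le_max_left (k + 1) m; omega
  have hml : m ≤ l := by have := le_max_right (k + 1) m; omega
  -- a condition over `D`
  obtain ⟨z, hz, hzD, z1, z2, z3, z4, hf1, hf2⟩ : ∃ z, G z ∧ E z (PD F.P D) ∧
      Sub (rst p1 D) z ∧ Sub (rst p2 D) z ∧ Sub (rst g D) z ∧ Sub (rst g' D) z ∧
      Fl F.P σ z (ini a (l + 1)) ∧ Fl F.P σ' z (ini a' (l + 1)) := by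
    obtain ⟨r1, hr1, k1, k2⟩ := hdir (hrD hp1) hq
    obtain ⟨r2, hr2, k3, k4⟩ := hdir (hrD hg) (hrD hg')
    obtain ⟨r, hr, k5, k6⟩ := hdir hr1 hr2
    have hrP := hG.sub r hr
    have up : ∀ p, E p F.P → Sub (rst p D) r → Sub (rst p D) (rst r D) := fun p hp h =>
      hD.up _ _ (hD.rs p hp) hrP h
    obtain ⟨y1, hy1, hy1D, m1, f1⟩ := vf.segX D σ a (l + 1) (rst r D) hD hσ ha (hrD hr)
      (hD.rs r hrP)
    obtain ⟨y2, hy2, hy2D, m2, f2⟩ := vf.segX D σ' a' (l + 1) y1 hD hσ' ha' hy1 hy1D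
    have m3 : Sub (rst r D) y2 := m1.trans m2
    refine ⟨y2, hy2, hy2D, ?_, ?_, ?_, ?_, ?_, f2⟩
    · exact (up p1 (hG.sub _ hp1) (k1.trans k5)).trans m3
    · exact (up p2 (mem_PD.1 hp2X).1 (k2.trans k5)).trans m3
    · exact (up g (hG.sub _ hg) (k3.trans k6)).trans m3
    · exact (up g' (hG.sub _ hg') (k4.trans k6)).trans m3
    · intro i w hi
      exact vf.up _ _ _ _ (f1 i w hi) (hG.sub _ hy2) m2
  have key : ∀ p w, E p (PD F.P X) → Sub s p → Sub (rst p D) z →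
      Fo F.P τ p (nu (Nat.pair k w)) → ∃ u : List ℕ,
        (Nat.unpair ((ini a (l + 1)).getD l 0)).1 = lc u ∧ u[k]? = some w := by
    intro p w hpX hsp hpz hfo
    have hpP := (mem_PD.1 hpX).1
    obtain ⟨r, hr, h1, h2⟩ := hD.ama p z hpP hzD hpz
    have hgr : ∀ g, E g (PD F.P X) → rst g C = s → Sub (rst g D) z → Sub g r := by
      intro g hgX hgs hgz y hy
      rcases hXDC g y hgX hy with h3 | h3
      · exact h2 _ (hgz _ h3)
      · rw [hgs] at h3
        exact h1 _ (hsp _ h3)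
    refine hkcb M F.P τ r g σ g' σ' m l k w (ini a (l + 1)) (ini a' (l + 1)) hok hok' hr
      (hgr g hgX hgs z3) (hgr g' hg'X hgs' z4) ?_ ?_ (hgcf.len _ _) (hgcf.len _ _) ?_ ?_ hml hkl ?_
    · intro i x hi
      exact vf.up _ _ _ _ (hf1 i x hi) hr h2
    · intro i x hi
      exact vf.up _ _ _ _ (hf2 i x hi) hr h2
    · rw [hgcf.take _ _ _ (by omega), hgcf.take _ _ _ (by omega), hgcf.eq]
      exact hl2
    · intro h
      rw [hgcf.eq] at h
      exact hl1 (h l (by omega))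
    · exact vf.up _ _ _ _ hfo hr h1
  obtain ⟨u1, e1, f1⟩ := key p1 (t k) hp1X hsp1 z1 hfo1
  obtain ⟨u2, e2, f2⟩ := key p2 v hp2X hsp2 z2 hfo2
  have h3 := hgcf.lc u1 u2 (by rw [← e1, ← e2])
  rw [h3, f2] at f1
  exact hvt (Option.some_injective _ f1).symm

end AO.BP
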